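import Pool.Agent.Helper54.SR.Defs

/-!
# SR-C5a: adjoining `ℓ`-th roots inside a finite Galois extension
-/

set_option autoImplicit false
open Polynomial Pool.Agent.Helper54.PW

namespace Pool.Agent.Helper54.SR

/-- SR-C5a -/
theorem exists_roots {E L : Type} [Field E] [Field L] [Algebra E L] [FiniteDimensional E L]
    [IsGalois E L] {ℓ : ℕ} (hℓ : (ℓ : E) ≠ 0) (S : Finset L) :
    ∃ (L' : Type) (_ : Field L') (_ : Algebra E L') (_ : FiniteDimensional E L')
      (_ : IsGalois E L') (j : L →ₐ[E] L'), ∀ x ∈ S, ∃ r : L', r ^ ℓ = j x := by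
  have hsep : Algebra.IsSeparable E (SeparableClosure L) :=
    Algebra.IsSeparable.trans E L (SeparableClosure L)
  have hcl : IsSepClosure E (SeparableClosure L) := ⟨inferInstance, hsep⟩
  have hgal : IsGalois E (SeparableClosure L) := inferInstance
  have hne : NeZero ((ℓ : ℕ) : SeparableClosure L) := by
    refine ⟨fun h => hℓ ?_⟩
    apply (algebraMap E (SeparableClosure L)).injective
    rw [map_natCast, map_zero]
    exact h
  have hr : ∀ x : L, ∃ r : SeparableClosure L, r ^ ℓ = algebraMap L (SeparableClosure L) x :=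
    fun x => IsSepClosed.exists_pow_nat_eq _ ℓ
  choose r hr using hr
  let K₁ : IntermediateField E (SeparableClosure L) :=
    (IsScalarTower.toAlgHom E L (SeparableClosure L)).fieldRange
  let K₂ : IntermediateField E (SeparableClosure L) :=
    IntermediateField.adjoin E (r '' (S : Set L))
  have hK₁ : FiniteDimensional E K₁ :=
    (IsScalarTower.toAlgHom E L (SeparableClosure L)).toLinearMap.finiteDimensional_range
  have hfin : Finite (r '' (S : Set L)) := (S.finite_toSet.image r)
  have hK₂ : FiniteDimensional E K₂ :=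
    IntermediateField.finiteDimensional_adjoin fun x _ => Algebra.IsSeparable.isIntegral E x
  have hK : FiniteDimensional E (K₁ ⊔ K₂ : IntermediateField E (SeparableClosure L)) :=
    IntermediateField.finiteDimensional_sup K₁ K₂
  let L' : IntermediateField E (SeparableClosure L) :=
    IntermediateField.normalClosure E (K₁ ⊔ K₂ : IntermediateField E (SeparableClosure L))
      (SeparableClosure L)
  have hle : (K₁ ⊔ K₂ : IntermediateField E (SeparableClosure L)) ≤ L' :=
    IntermediateField.le_normalClosure _
  have hL'fin : FiniteDimensional E L' := normalClosure.is_finiteDimensional _ _ _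
  have hL'gal : IsGalois E L' := IsGalois.normalClosure E _ _
  refine ⟨L', inferInstance, inferInstance, hL'fin, hL'gal,
    (IsScalarTower.toAlgHom E L (SeparableClosure L)).codRestrict L'.toSubalgebra
      (fun x => hle ((le_sup_left : K₁ ≤ K₁ ⊔ K₂) ⟨x, rfl⟩)), fun x hx => ?_⟩
  refine ⟨⟨r x, hle ((le_sup_right : K₂ ≤ K₁ ⊔ K₂)
    (IntermediateField.subset_adjoin E _ ⟨x, hx, rfl⟩))⟩, ?_⟩
  apply Subtype.ext
  exact hr x

end Pool.Agent.Helper54.SR
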