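import Pool.Agent.Helper54.SR.Defs

/-!
# SR-C7a: Gaschütz: lifting a homomorphism from a subgroup of index prime to `ℓ`
-/

set_option autoImplicit false

namespace Pool.Agent.Helper54.SR

theorem gaschutz_hom {ℓ : ℕ} (hℓ : ℓ.Prime) {Δ G Q : Type} [Group Δ] [Finite Δ] [Group G]
    [Group Q] (V : Subgroup G) [V.Normal] (hVc : ∀ a b : V, a * b = b * a)
    (hVℓ : ∀ a : V, a ^ ℓ = 1) (π : G →* Q) (hπ : Function.Surjective π)
    (hker : ∀ g, π g = 1 ↔ g ∈ V) (q : Δ →* Q) (H : Subgroup Δ) (hH : ¬ ℓ ∣ H.index)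
    (ρH : H →* G) (hρH : ∀ h : H, π (ρH h) = q h) :
    ∃ ρ : Δ →* G, ∀ x, π (ρ x) = q x := by
  classical
  choose s hs using hπ
  have hmem : ∀ x : Δ, x * ((x⁻¹ : Δ) : Δ ⧸ H).out ∈ H := by
    intro x
    have := QuotientGroup.eq.1 (QuotientGroup.out_eq' ((x⁻¹ : Δ) : Δ ⧸ H)).symm
    simpa using this
  obtain ⟨r, hr, hrH⟩ : ∃ r : Δ → G, (∀ x, π (r x) = q x) ∧
      ∀ (h : H) (x : Δ), r (h * x) = ρH h * r x := by
    refine ⟨fun x => ρH ⟨x * ((x⁻¹ : Δ) : Δ ⧸ H).out, hmem x⟩ *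
      s ((q ((x⁻¹ : Δ) : Δ ⧸ H).out)⁻¹), ?_, ?_⟩
    · intro x
      simp [hρH, hs]
    · intro h x
      have hc : (((h * x)⁻¹ : Δ) : Δ ⧸ H) = ((x⁻¹ : Δ) : Δ ⧸ H) := by
        rw [QuotientGroup.eq]
        simp
      have hm : ∀ (Y Z : Δ ⧸ H) (e : Y = Z) (a : (h : Δ) * x * Y.out ∈ H) (b : x * Z.out ∈ H),
          ρH ⟨(h : Δ) * x * Y.out, a⟩ * s ((q Y.out)⁻¹) =
            ρH h * (ρH ⟨x * Z.out, b⟩ * s ((q Z.out)⁻¹)) := by
        rintro Y Z rfl a b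
        have : (⟨(h : Δ) * x * Y.out, a⟩ : H) = h * ⟨x * Y.out, b⟩ := by
          ext
          simp [mul_assoc]
        rw [this, map_mul, mul_assoc]
      exact hm _ _ hc _ _
  let _ : CommGroup V := { (inferInstance : Group V) with mul_comm := hVc }
  let _ : Fintype (Δ ⧸ H) := Fintype.ofFinite _
  have hψm : ∀ z y : Δ, r z * (r (y⁻¹ * z))⁻¹ * r y⁻¹ ∈ V := by
    intro z y
    rw [← hker]
    simp [hr]
  have hfm : ∀ z w : Δ, r z * r w * (r (z * w))⁻¹ ∈ V := by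
    intro z w
    rw [← hker]
    simp [hr]
  let φ : Δ → Δ ⧸ H → V := fun z Y => ⟨_, hψm z Y.out⟩
  let f : Δ → Δ → V := fun z w => ⟨_, hfm z w⟩
  have hφ : ∀ z y : Δ, ((φ z (y : Δ ⧸ H) : V) : G) = r z * (r (y⁻¹ * z))⁻¹ * r y⁻¹ := by
    intro z y
    have h1 : ((y : Δ ⧸ H).out)⁻¹ * y ∈ H := QuotientGroup.eq.1 (QuotientGroup.out_eq' (y : Δ ⧸ H))
    obtain ⟨h, hh⟩ : ∃ h : H, ((y : Δ ⧸ H).out)⁻¹ = h * y⁻¹ := ⟨⟨_, h1⟩, by simp⟩
    change r z * (r (((y : Δ ⧸ H).out)⁻¹ * z))⁻¹ * r ((y : Δ ⧸ H).out)⁻¹ = _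
    rw [hh, mul_assoc (h : Δ) y⁻¹ z, hrH, hrH]
    group
  let F : Δ → V := fun z => ∏ Y : Δ ⧸ H, φ z Y
  have key : ∀ z w : Δ, MulAut.conjNormal (r z) (F w) * F z =
      f z w ^ H.index * F (z * w) := by
    intro z w
    have h1 : F w = ∏ Y : Δ ⧸ H, φ w (z⁻¹ • Y) :=
      (Equiv.prod_comp (MulAction.toPerm z⁻¹ : Equiv.Perm (Δ ⧸ H)) (φ w)).symm
    have h2 : MulAut.conjNormal (r z) (F w) =
        ∏ Y : Δ ⧸ H, MulAut.conjNormal (r z) (φ w (z⁻¹ • Y)) := by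
      rw [h1]
      exact map_prod (MulAut.conjNormal (r z) : V ≃* V) _ _
    have h3 : f z w ^ H.index = ∏ _Y : Δ ⧸ H, f z w := by
      rw [Finset.prod_const, Finset.card_univ, Subgroup.index_eq_card, Nat.card_eq_fintype_card]
    rw [h2, h3]
    change _ * ∏ Y : Δ ⧸ H, φ z Y = _ * ∏ Y : Δ ⧸ H, φ (z * w) Y
    rw [← Finset.prod_mul_distrib, ← Finset.prod_mul_distrib]
    refine Finset.prod_congr rfl fun Y _ => ?_
    obtain ⟨y, rfl⟩ := QuotientGroup.mk_surjective Y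
    apply Subtype.ext
    rw [Subgroup.coe_mul, Subgroup.coe_mul, MulAut.conjNormal_apply, hφ, hφ]
    have h4 : z⁻¹ • (y : Δ ⧸ H) = ((z⁻¹ * y : Δ) : Δ ⧸ H) := rfl
    rw [h4, hφ]
    change _ = r z * r w * (r (z * w))⁻¹ * _
    have h5 : (z⁻¹ * y)⁻¹ = y⁻¹ * z := by group
    rw [h5, mul_assoc y⁻¹ z w]
    group
  have hcop : Nat.Coprime H.index ℓ := ((Nat.Prime.coprime_iff_not_dvd hℓ).2 hH).symm
  obtain ⟨m', -, hm'⟩ := Nat.exists_mul_mod_eq_one_of_coprime hcop hℓ.one_lt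
  let c : Δ → V := fun z => F z ^ m'
  have key2 : ∀ z w : Δ, MulAut.conjNormal (r z) (c w) * c z = f z w * c (z * w) := by
    intro z w
    have h1 : MulAut.conjNormal (r z) (c w) = (MulAut.conjNormal (r z) (F w)) ^ m' :=
      map_pow (MulAut.conjNormal (r z) : V ≃* V) _ _
    have h2 : (f z w ^ H.index) ^ m' = f z w := by
      rw [← pow_mul, pow_eq_pow_mod _ (hVℓ (f z w)), hm', pow_one]
    rw [h1]
    change _ * F z ^ m' = _ * F (z * w) ^ m'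
    rw [← mul_pow, key, mul_pow, h2]
  refine ⟨MonoidHom.mk' (fun z => ((c z)⁻¹ : V) * r z) ?_, ?_⟩
  · intro z w
    have h1 := congrArg (fun v : V => (v : G)) (key2 z w)
    simp only [Subgroup.coe_mul, MulAut.conjNormal_apply] at h1
    have h2 : ((f z w : V) : G) = r z * r w * (r (z * w))⁻¹ := rfl
    rw [h2] at h1
    have h3 : (c z : G) * (r z * (c w : G) * (r z)⁻¹) = r z * r w * (r (z * w))⁻¹ * (c (z * w) : G) := by
      rw [← h1]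
      have := congrArg (fun v : V => (v : G)) (hVc (c z) (MulAut.conjNormal (r z) (c w)))
      simpa only [Subgroup.coe_mul, MulAut.conjNormal_apply] using this
    simp only [Subgroup.coe_inv]
    -- goal : (c (z*w))⁻¹ * r (z*w) = (c z)⁻¹ * r z * ((c w)⁻¹ * r w)
    have h4 : (r (z * w))⁻¹ * (c (z * w) : G) = (r w)⁻¹ * (r z)⁻¹ * ((c z : G) * (r z * (c w : G) * (r z)⁻¹)) := by
      rw [h3]
      group
    have h4' : (r (z * w))⁻¹ * (c (z * w) : G) = (r w)⁻¹ * (r z)⁻¹ * ((r z * (c w : G) * (r z)⁻¹) * (c z : G)) := by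
      rw [h1]
      group
    rw [← inv_inj]
    calc ((c (z * w) : G)⁻¹ * r (z * w))⁻¹ = (r (z * w))⁻¹ * (c (z * w) : G) := by group
      _ = _ := h4'
      _ = _ := by group
  · intro x
    have h1 : π (((c x)⁻¹ : V) : G) = 1 := (hker _).2 ((c x)⁻¹).2
    simp only [MonoidHom.mk'_apply, map_mul, h1, hr, one_mul]

end Pool.Agent.Helper54.SR
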